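import Pool.Agent.Helper58.RK.Main

/-! Project AH (MP_1bacb5_al): groups of homeomorphisms of the interval with power type germs,
definitions.  `ℝ ≃o ℝ` is the group of the increasing bijections of the line, `(f * g) x = f (g x)`. -/

set_option autoImplicit false

universe u

namespace Pool.Agent.Helper65.AH

open Filter Topology

/-- `u` is zero near `0+`, or `u ~ c x ^ s` and `u' ~ s c x ^ (s - 1)` at `0+` with `c ≠ 0`, `s > 0` -/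
def Pow (u : ℝ → ℝ) : Prop :=
  (∀ᶠ x in 𝓝[>] (0 : ℝ), u x = 0) ∨
  ∃ c s : ℝ, c ≠ 0 ∧ 0 < s ∧ ∃ u' : ℝ → ℝ, (∀ᶠ x in 𝓝[>] (0 : ℝ), HasDerivAt u (u' x) x) ∧
    Tendsto (fun x => u x / x ^ s) (𝓝[>] 0) (𝓝 c) ∧
    Tendsto (fun x => u' x / x ^ (s - 1)) (𝓝[>] 0) (𝓝 (s * c))

/-- trivial germ at `0+` -/
def Tr (f : ℝ ≃o ℝ) : Prop := ∀ᶠ x in 𝓝[>] (0 : ℝ), f x = x

/-- `f x = x + c x ^ s + o(x ^ s)` -/
def Asy (f : ℝ ≃o ℝ) (s c : ℝ) : Prop :=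
  Tendsto (fun x => (f x - x) / x ^ s) (𝓝[>] 0) (𝓝 c)

/-- `f x = x + c x ^ (1 + k) + o(x ^ (1 + k))` together with the derivative (`c = 0` is allowed) -/
def Dep (f : ℝ ≃o ℝ) (k c : ℝ) : Prop :=
  Asy f (1 + k) c ∧ ∃ u' : ℝ → ℝ,
    (∀ᶠ x in 𝓝[>] (0 : ℝ), HasDerivAt (fun x => f x - x) (u' x) x) ∧
    Tendsto (fun x => u' x / x ^ k) (𝓝[>] 0) (𝓝 ((1 + k) * c))

/-- `f x / x` tends to `l` -/
def Ra (f : ℝ ≃o ℝ) (l : ℝ) : Prop := Tendsto (fun x => f x / x) (𝓝[>] 0) (𝓝 l)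

/-- the exponent: `log (f x) / log x` tends to `α` -/
def Ex (f : ℝ ≃o ℝ) (α : ℝ) : Prop :=
  Tendsto (fun x => Real.log (f x) / Real.log x) (𝓝[>] 0) (𝓝 α)

/-- fixes `0`, and the displacements of `f` and of its inverse are of power type at `0+` -/
def Good (f : ℝ ≃o ℝ) : Prop :=
  f 0 = 0 ∧ Pow (fun x => f x - x) ∧ Pow (fun x => f⁻¹ x - x)

end Pool.Agent.Helper65.AH
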