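import Pool.Agent.Helper65.AH.St

/-! Project AH (MP_1bacb5_al): assembly. -/

set_option autoImplicit false

universe u

namespace Pool.Agent.Helper65.AH

open Filter Topology Pool.Agent.Helper58.RK
open scoped commutatorElement

theorem pos_of {f : ℝ ≃o ℝ} (h : f 0 = 0) {x : ℝ} (hx : 0 < x) : 0 < f x := by
  have := f.strictMono hx
  rwa [h] at this

theorem inv_zero {f : ℝ ≃o ℝ} (h : f 0 = 0) : f⁻¹ 0 = 0 := by
  have : f⁻¹ (f 0) = 0 := f.symm_apply_apply 0
  rwa [h] at this

theorem tend {f : ℝ ≃o ℝ} (h : f 0 = 0) : Tendsto f (𝓝[>] 0) (𝓝[>] 0) := by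
  refine tendsto_nhdsWithin_iff.2 ⟨?_, ?_⟩
  · have : Tendsto f (𝓝 0) (𝓝 (f 0)) := f.continuous.tendsto 0
    rw [h] at this
    exact this.mono_left nhdsWithin_le_nhds
  · filter_upwards [self_mem_nhdsWithin] with x hx
    exact pos_of h hx

theorem tr_one : Tr 1 := Eventually.of_forall fun _ => rfl

theorem tr_mul {f g : ℝ ≃o ℝ} (hf : Tr f) (hg : Tr g) : Tr (f * g) := by
  filter_upwards [hf, hg] with x h1 h2
  change f (g x) = x
  rw [h2, h1]

theorem tr_inv {f : ℝ ≃o ℝ} (hf : Tr f) : Tr f⁻¹ := by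
  filter_upwards [hf] with x h1
  change f.symm x = x
  rw [OrderIso.symm_apply_eq, h1]

/-- tangent to the identity iff the quotient tends to one -/
theorem ra_iff {f : ℝ ≃o ℝ} : Ra f 1 ↔ Asy f 1 0 := by
  unfold Ra Asy
  constructor
  · intro h
    have h1 : Tendsto (fun x => f x / x - 1) (𝓝[>] 0) (𝓝 (1 - 1)) := h.sub tendsto_const_nhds
    rw [sub_self] at h1
    refine h1.congr' ?_
    filter_upwards [self_mem_nhdsWithin] with x hx
    have hx : (0 : ℝ) < x := hx
    rw [Real.rpow_one]
    field_simp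
  · intro h
    have h1 : Tendsto (fun x => (f x - x) / x ^ (1 : ℝ) + 1) (𝓝[>] 0) (𝓝 (0 + 1)) :=
      h.add tendsto_const_nhds
    rw [zero_add] at h1
    refine h1.congr' ?_
    filter_upwards [self_mem_nhdsWithin] with x hx
    have hx : (0 : ℝ) < x := hx
    rw [Real.rpow_one]
    field_simp
    ring

theorem asy_ra (hAC : StAC) {f : ℝ ≃o ℝ} {s c : ℝ} (hs : 1 < s) (h : Asy f s c) : Ra f 1 :=
  ra_iff.2 (hAC.2.2.1 f s 1 c h hs)

theorem tr_asy {f : ℝ ≃o ℝ} (h : Tr f) (s : ℝ) : Asy f s 0 := by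
  refine (tendsto_const_nhds (x := (0 : ℝ))).congr' ?_
  filter_upwards [h] with x hx
  rw [hx, sub_self, zero_div]

theorem germ (hAC : StAC) (hEX : StEX) (hRA : StRA.{u}) {Γ : Type u} [Group Γ] {r : ℕ}
    (θ : Γ →* (ℝ ≃o ℝ)) (hr : SRank Γ r) (hG : ∀ g, Good (θ g)) :
    ∀ g ∈ derivedSeries Γ 2, Tr (θ g) := by
  obtain ⟨e1, e2, e3, e4, e5, e6, e7, e8⟩ := hEX
  obtain ⟨hsame, hcomm⟩ := hRA Γ r θ hr hG
  have h0 : ∀ g, θ g 0 = 0 := fun g => (hG g).1
  -- the subgroups
  let T : Subgroup Γ :=
    { carrier := {g | Ra (θ g) 1}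
      mul_mem' := by
        intro a b ha hb
        have := e5 _ _ _ _ (h0 a) (h0 b) ha hb
        change Ra (θ (a * b)) 1
        rw [map_mul]
        simpa using this
      one_mem' := by
        change Ra (θ 1) 1
        rw [map_one]
        exact ra_iff.2 (tr_asy tr_one 1)
      inv_mem' := by
        intro a ha
        have := e6 _ _ (h0 a) one_pos ha
        change Ra (θ a⁻¹) 1
        rw [map_inv]
        simpa using this }
  let R : Subgroup Γ :=
    { carrier := {g | Tr (θ g)}
      mul_mem' := by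
        intro a b ha hb
        change Tr (θ (a * b))
        rw [map_mul]
        exact tr_mul ha hb
      one_mem' := by
        change Tr (θ 1)
        rw [map_one]
        exact tr_one
      inv_mem' := by
        intro a ha
        change Tr (θ a⁻¹)
        rw [map_inv]
        exact tr_inv ha }
  have hTT : ⁅T, T⁆ ≤ R := by
    rw [Subgroup.commutator_le]
    intro a ha b hb
    exact hcomm a b ha hb
  let K : Subgroup Γ :=
    { carrier := {g | Ex (θ g) 1}
      mul_mem' := by
        intro a b ha hb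
        have := e2 _ _ _ _ (h0 a) (h0 b) one_pos one_pos ha hb
        change Ex (θ (a * b)) 1
        rw [map_mul]
        simpa using this
      one_mem' := by
        change Ex (θ 1) 1
        rw [map_one]
        refine (tendsto_const_nhds (x := (1 : ℝ))).congr' ?_
        filter_upwards [Ioo_mem_nhdsGT (show (0 : ℝ) < 1 by norm_num)] with x hx
        have : Real.log x ≠ 0 := (Real.log_neg hx.1 hx.2).ne
        change 1 = Real.log x / Real.log x
        rw [div_self this]
      inv_mem' := by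
        intro a ha
        have := e3 _ _ (h0 a) one_pos ha
        change Ex (θ a⁻¹) 1
        rw [map_inv]
        simpa using this }
  have hK : ⁅(⊤ : Subgroup Γ), (⊤ : Subgroup Γ)⁆ ≤ K := by
    rw [Subgroup.commutator_le]
    intro a _ b _
    obtain ⟨α, hα, h1⟩ := e1 _ (hG a)
    obtain ⟨β, hβ, h2⟩ := e1 _ (hG b)
    have h3 := e3 _ _ (h0 a) hα h1
    have h4 := e3 _ _ (h0 b) hβ h2
    have h5 := e2 _ _ _ _ (h0 a) (h0 b) hα hβ h1 h2
    have h6 := e2 _ _ _ _ (by rw [← map_mul]; exact h0 _) (inv_zero (h0 a)) (by positivity)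
      (by positivity) h5 h3
    have h7 := e2 _ _ _ _ (by rw [← map_mul, ← map_inv, ← map_mul]; exact h0 _)
      (inv_zero (h0 b)) (by positivity) (by positivity) h6 h4
    change Ex (θ ⁅a, b⁆) 1
    rw [commutatorElement_def, map_mul, map_mul, map_mul, map_inv, map_inv]
    have h8 : α * β * α⁻¹ * β⁻¹ = 1 := by field_simp
    rwa [h8] at h7
  have hKK : ⁅K, K⁆ ≤ T := by
    rw [Subgroup.commutator_le]
    intro a ha b hb
    obtain ⟨α, hα, h1⟩ := e4 _ (hG a) ha
    obtain ⟨β, hβ, h2⟩ := e4 _ (hG b) hb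
    have h3 := e6 _ _ (h0 a) hα h1
    have h4 := e6 _ _ (h0 b) hβ h2
    have h5 := e5 _ _ _ _ (h0 a) (h0 b) h1 h2
    have h6 := e5 _ _ _ _ (by rw [← map_mul]; exact h0 _) (inv_zero (h0 a)) h5 h3
    have h7 := e5 _ _ _ _ (by rw [← map_mul, ← map_inv, ← map_mul]; exact h0 _)
      (inv_zero (h0 b)) h6 h4
    change Ra (θ ⁅a, b⁆) 1
    rw [commutatorElement_def, map_mul, map_mul, map_mul, map_inv, map_inv]
    have h8 : α * β * α⁻¹ * β⁻¹ = 1 := by field_simp
    rwa [h8] at h7
  have hd2 : derivedSeries Γ 2 = ⁅⁅(⊤ : Subgroup Γ), ⊤⁆, ⁅(⊤ : Subgroup Γ), ⊤⁆⁆ := rfl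
  have hdT : derivedSeries Γ 2 ≤ T := by
    rw [hd2]
    exact (Subgroup.commutator_mono hK hK).trans hKK
  intro g hg
  by_contra hcon
  have hgT : Ra (θ g) 1 := hdT hg
  rcases e7 _ (hG g) hgT with h | ⟨k, a, hk, ha, hDep⟩
  · exact hcon h
  -- all exponents are one
  have hall : ∀ h : Γ, Ex (θ h) 1 := by
    have key : ∀ (h : Γ) (σ : ℝ), 0 < σ → Ex (θ h) σ → σ < 1 → False := by
      intro h σ hσ hEx hσ1
      obtain ⟨a', ha', hAsy⟩ := e8 (θ h) (θ g) σ k a (hG h) hEx hσ1 (h0 g) hk ha hDep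
      have h1 : θ h * θ g * (θ h)⁻¹ = θ (h * g * h⁻¹) := by
        rw [map_mul, map_mul, map_inv]
      rw [h1] at hAsy
      have hs : 1 < 1 + k / σ := by
        have : 0 < k / σ := by positivity
        linarith
      have h2 := asy_ra hAC hs hAsy
      rcases e7 _ (hG _) h2 with h3 | ⟨k', a'', hk', ha'', hD⟩
      · have := tendsto_nhds_unique hAsy (tr_asy h3 _)
        exact ha' this
      · have h4 := (hAC.2.2.2.1 _ _ _ _ _ hAsy hD.1 ha' ha'').1
        have h5 := hsame _ _ _ _ _ _ hk' hk ha'' ha hD hDep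
        have h6 : k / σ = k := by linarith
        rw [div_eq_iff hσ.ne'] at h6
        have h7 : k * (1 - σ) = 0 := by linarith
        rcases mul_eq_zero.1 h7 with h8 | h8
        · exact hk.ne' h8
        · linarith
    intro h
    obtain ⟨σ, hσ, h1⟩ := e1 _ (hG h)
    rcases lt_trichotomy σ 1 with h2 | h2 | h2
    · exact (key h σ hσ h1 h2).elim
    · rwa [h2] at h1
    · have h3 := e3 _ _ (h0 h) hσ h1
      rw [← map_inv] at h3
      exact (key h⁻¹ σ⁻¹ (by positivity) h3 (inv_lt_one_of_one_lt₀ h2)).elim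
  have hKtop : (⊤ : Subgroup Γ) ≤ K := fun h _ => hall h
  have h1 : ⁅(⊤ : Subgroup Γ), (⊤ : Subgroup Γ)⁆ ≤ T :=
    (Subgroup.commutator_mono hKtop hKtop).trans hKK
  have h2 : derivedSeries Γ 2 ≤ R := by
    rw [hd2]
    exact (Subgroup.commutator_mono h1 h1).trans hTT
  exact hcon (h2 hg)

/-- the germ on the right of `p`, moved to `0` -/
def rgt (p : ℝ) : (ℝ ≃o ℝ) →* (ℝ ≃o ℝ) where
  toFun g :=
    { toFun := fun x => g (p + x) - p
      invFun := fun x => g.symm (p + x) - p
      left_inv := fun x => by simp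
      right_inv := fun x => by simp
      map_rel_iff' := by
        intro a b
        change g (p + a) - p ≤ g (p + b) - p ↔ a ≤ b
        rw [sub_le_sub_iff_right, g.le_iff_le]
        simp }
  map_one' := by
    ext x
    change p + x - p = x
    ring
  map_mul' := by
    intro g h
    ext x
    change g (h (p + x)) - p = g (p + (h (p + x) - p)) - p
    congr 2
    ring

/-- the germ on the left of `p`, moved to `0` and reflected -/
def lft (p : ℝ) : (ℝ ≃o ℝ) →* (ℝ ≃o ℝ) where
  toFun g :=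
    { toFun := fun x => p - g (p - x)
      invFun := fun x => p - g.symm (p - x)
      left_inv := fun x => by simp
      right_inv := fun x => by simp
      map_rel_iff' := by
        intro a b
        change p - g (p - a) ≤ p - g (p - b) ↔ a ≤ b
        rw [sub_le_sub_iff_left, g.le_iff_le, sub_le_sub_iff_left] }
  map_one' := by
    ext x
    change p - (p - x) = x
    ring
  map_mul' := by
    intro g h
    ext x
    change p - g (h (p - x)) = p - g (p - (p - h (p - x)))
    congr 2
    ring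

theorem rgt_apply (p : ℝ) (g : ℝ ≃o ℝ) (x : ℝ) : rgt p g x = g (p + x) - p := rfl

theorem lft_apply (p : ℝ) (g : ℝ ≃o ℝ) (x : ℝ) : lft p g x = p - g (p - x) := rfl

theorem pow_neg {u v : ℝ → ℝ} (huv : ∀ x, v x = - u x) (h : Pow u) : Pow v := by
  have hv : v = fun x => - u x := funext huv
  subst hv
  rcases h with h | ⟨c, s, hc, hs, u', h1, h2, h3⟩
  · left
    filter_upwards [h] with x hx
    rw [hx, neg_zero]
  · right
    refine ⟨-c, s, neg_ne_zero.2 hc, hs, fun x => - u' x, ?_, ?_, ?_⟩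
    · filter_upwards [h1] with x hx
      exact hx.neg
    · have := h2.neg
      refine this.congr fun x => ?_
      rw [neg_div]
    · have := h3.neg
      rw [← mul_neg] at this
      refine this.congr fun x => ?_
      rw [neg_div]

theorem final (hAC : StAC) (hEX : StEX) (hRA : StRA.{0}) (hBS : StBS) (r : ℕ)
    (G : Subgroup (ℝ ≃o ℝ)) (hr : SRank G r)
    (hsupp : ∀ g ∈ G, ∀ x, x ∉ Set.Icc (0 : ℝ) 1 → g x = x)
    (hP : ∀ p, (∀ g ∈ G, g p = p) → ∀ g ∈ G,
      Pow (fun x => g (p + x) - (p + x)) ∧ Pow (fun x => g (p - x) - (p - x))) :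
    derivedSeries G 2 = ⊥ := by
  rw [eq_bot_iff]
  intro g hg
  rw [Subgroup.mem_bot]
  have key : (g : ℝ ≃o ℝ) = 1 := by
    refine hBS r G hr hsupp g g.2 fun p hp => ?_
    have hR : Tr (rgt p g) := by
      refine germ hAC hEX hRA ((rgt p).comp G.subtype) hr ?_ g hg
      intro h
      refine ⟨?_, ?_, ?_⟩
      · change (h : ℝ ≃o ℝ) (p + 0) - p = 0
        rw [add_zero, hp h h.2, sub_self]
      · have := (hP p hp h h.2).1
        convert this using 2 with x
        change (h : ℝ ≃o ℝ) (p + x) - p - x = _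
        ring
      · have := (hP p hp h⁻¹ (G.inv_mem h.2)).1
        convert this using 2 with x
        rw [← map_inv]
        change ((h⁻¹ : G) : ℝ ≃o ℝ) (p + x) - p - x = _
        rw [InvMemClass.coe_inv]
        ring
    have hL : Tr (lft p g) := by
      refine germ hAC hEX hRA ((lft p).comp G.subtype) hr ?_ g hg
      intro h
      refine ⟨?_, ?_, ?_⟩
      · change p - (h : ℝ ≃o ℝ) (p - 0) = 0
        rw [sub_zero, hp h h.2, sub_self]
      · refine pow_neg (fun x => ?_) (hP p hp h h.2).2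
        change p - (h : ℝ ≃o ℝ) (p - x) - x = _
        ring
      · refine pow_neg (fun x => ?_) (hP p hp h⁻¹ (G.inv_mem h.2)).2
        rw [← map_inv]
        change p - ((h⁻¹ : G) : ℝ ≃o ℝ) (p - x) - x = _
        rw [InvMemClass.coe_inv]
        ring
    -- combine the two sides
    have h1 : ∀ᶠ y in 𝓝[>] p, (g : ℝ ≃o ℝ) y = y := by
      have ht : Tendsto (fun y : ℝ => y - p) (𝓝[>] p) (𝓝[>] 0) := by
        refine tendsto_nhdsWithin_iff.2 ⟨?_, ?_⟩
        · have : Tendsto (fun y : ℝ => y - p) (𝓝 p) (𝓝 (p - p)) :=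
            (continuous_id.sub continuous_const).tendsto p
          rw [sub_self] at this
          exact this.mono_left nhdsWithin_le_nhds
        · filter_upwards [self_mem_nhdsWithin] with y hy
          have hy : p < y := hy
          exact sub_pos.2 hy
      filter_upwards [ht.eventually hR] with y hy
      rw [rgt_apply, add_sub_cancel] at hy
      linarith
    have h2 : ∀ᶠ y in 𝓝[<] p, (g : ℝ ≃o ℝ) y = y := by
      have ht : Tendsto (fun y : ℝ => p - y) (𝓝[<] p) (𝓝[>] 0) := by
        refine tendsto_nhdsWithin_iff.2 ⟨?_, ?_⟩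
        · have : Tendsto (fun y : ℝ => p - y) (𝓝 p) (𝓝 (p - p)) :=
            (continuous_const.sub continuous_id).tendsto p
          rw [sub_self] at this
          exact this.mono_left nhdsWithin_le_nhds
        · filter_upwards [self_mem_nhdsWithin] with y hy
          have hy : y < p := hy
          exact sub_pos.2 hy
      filter_upwards [ht.eventually hL] with y hy
      rw [lft_apply, sub_sub_cancel] at hy
      linarith
    have h3 : ∀ᶠ y in 𝓝[≠] p, (g : ℝ ≃o ℝ) y = y := by
      rw [← nhdsLT_sup_nhdsGT, eventually_sup]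
      exact ⟨h2, h1⟩
    rw [eventually_nhdsWithin_iff] at h3
    filter_upwards [h3] with y hy
    by_cases hyp : y = p
    · rw [hyp, hp g g.2]
    · exact hy hyp
  exact Subtype.ext key

end Pool.Agent.Helper65.AH
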