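import Pool.Agent.Helper65.AH.Defs

/-!
# Project AH (MP_1bacb5_al): statements with complete proofs

All limits are at `0+` (`𝓝[>] 0`).  An `f : ℝ ≃o ℝ` with `f 0 = 0` is continuous and strictly increasing, `f x > 0` for `x > 0`,
and `f x → 0+` as `x → 0+`; the same for `f⁻¹`.
-/

set_option autoImplicit false

universe u

namespace Pool.Agent.Helper65.AH

open Filter Topology Pool.Agent.Helper58.RK
open scoped commutatorElement

/-- AC (asymptotic calculus of germs tangent to the identity).  PROOF.  (1) Put `y = g x`; `y → 0+`, `y / x → 1` (as `Asy g 1 0`).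
`f (g x) - x = (f y - y) + (g x - x)` and `(f y - y) / x ^ s = (f y - y) / y ^ s * (y / x) ^ s → a`.  (2) Put `y = f⁻¹ x`;
`x / y = f y / y → 1`; `f⁻¹ x - x = - (f y - y)`, divide by `x ^ s` as before.  (3) `x ^ (s - s') → 0`.  (4) By (3) `s ≠ s'` would give a
limit zero for the smaller exponent; then uniqueness of limits.  (5) `F x = f x - x`, `H x = g x - x`.  Let `y = f⁻¹ (g⁻¹ x)`,
`x = g (f y)`, `y → 0+`, `x / y → 1` ((1) with `s = 1`).  `⁅f, g⁆ x - x = f (g y) - g (f y)` `= (F (g y) - F y) - (H (f y) - H y)`.  By the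
mean value theorem `F (g y) - F y = F' ξ * (g y - y)` with `ξ` between `y` and `g y`, so `ξ / y → 1` and, dividing by `y ^ (1 + k + l)`,
the limit is `(1 + k) a b`; in the same way the second bracket gives `(1 + l) a b`.  (For `g y = y` take `ξ = y`.)  The difference is
`(k - l) a b`, and `x ^ (1 + k + l) / y ^ (1 + k + l) → 1`. -/
def StAC : Prop :=
  (∀ (f g : ℝ ≃o ℝ) (s a b : ℝ), f 0 = 0 → g 0 = 0 → 1 ≤ s → Asy g 1 0 → Asy f s a → Asy g s b →
    Asy (f * g) s (a + b)) ∧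
  (∀ (f : ℝ ≃o ℝ) (s a : ℝ), f 0 = 0 → 1 ≤ s → Asy f 1 0 → Asy f s a → Asy f⁻¹ s (-a)) ∧
  (∀ (f : ℝ ≃o ℝ) (s s' a : ℝ), Asy f s a → s' < s → Asy f s' 0) ∧
  (∀ (f : ℝ ≃o ℝ) (s s' a a' : ℝ), Asy f s a → Asy f s' a' → a ≠ 0 → a' ≠ 0 → s = s' ∧ a = a') ∧
  (∀ (f g : ℝ ≃o ℝ) (k l a b : ℝ), f 0 = 0 → g 0 = 0 → 0 < k → 0 < l → Dep f k a → Dep g l b →
    Asy ⁅f, g⁆ (1 + k + l) ((k - l) * a * b))

/-- EX (exponents and derivatives of germs).  PROOF.  Let `f` be `Good`, `u x = f x - x`.  By `Pow u` one of: (Z) `u = 0` near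
`0+`; (P) `u ~ c x ^ s`, `s > 1`: `f x / x → 1`; (L) `s = 1`: `f x / x → 1 + c`, and `1 + c ≥ 0`; (S) `s < 1`: as `x / x ^ s → 0`, `f x / x ^ s → c`, so `c > 0`
(`f x > 0`, `c ≠ 0`).  In (Z), (P) and (L) with `1 + c > 0` one has `Ex f 1` (`log (f x) / log x = 1 + log (f x / x) / log x`,
`log x → -∞`); in (S) `Ex f s`, `s < 1`.  In (L) with `c = -1`: `f x / x → 0`, so `f⁻¹ x / x → ∞` (put `x = f y`), so `f⁻¹` is in case (S) (in the other
cases `f⁻¹ x / x` is bounded): `Ex f⁻¹ s` with `s < 1`, and `Ex f (1 / s)` by item 3.  This proves item 1.  Item 2: `log (f (g x)) / log x =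
(log (f y) / log y) * (log y / log x)`, `y = g x → 0+`.  Item 3: `y = f⁻¹ x`, `log y / log x = 1 / (log (f y) / log y)`.  Item 4: if the
exponent is `1` the cases (S) and (L) with `c = -1` are excluded by uniqueness of limits.  Items 5, 6 as items 2, 3.  Item 7: (Z) gives
`Tr`; (P) gives `Dep f (s - 1) c`; (L) is impossible since `1 + c ≠ 1`; (S) is impossible since `f x / x → ∞`.  Item 8: as the exponent
`σ` of `h` is `< 1`, `h` is in case (S) with `s = σ`: `h x / x ^ σ → c > 0` and `h' x / x ^ (σ - 1) → σ c` (`h' = 1 + u'`, `x ^ (1 - σ) → 0`).  With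
`y = h⁻¹ x`, `x = h y ~ c y ^ σ`: `h (t y) - h y = h' ξ * (t y - y)`, `ξ / y → 1`, so it is `~ σ c a y ^ (σ + k)`; and
`x ^ (1 + k / σ) ~ c ^ (1 + k / σ) y ^ (σ + k)`.  So the limit is `a' = σ * c * a / c ^ (1 + k / σ) ≠ 0`.  (`Dep t k a` is used only through
`Asy t (1 + k) a`.) -/
def StEX : Prop :=
  (∀ f : ℝ ≃o ℝ, Good f → ∃ α : ℝ, 0 < α ∧ Ex f α) ∧
  (∀ (f g : ℝ ≃o ℝ) (α β : ℝ), f 0 = 0 → g 0 = 0 → 0 < α → 0 < β → Ex f α → Ex g β →
    Ex (f * g) (α * β)) ∧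
  (∀ (f : ℝ ≃o ℝ) (α : ℝ), f 0 = 0 → 0 < α → Ex f α → Ex f⁻¹ α⁻¹) ∧
  (∀ f : ℝ ≃o ℝ, Good f → Ex f 1 → ∃ l : ℝ, 0 < l ∧ Ra f l) ∧
  (∀ (f g : ℝ ≃o ℝ) (l m : ℝ), f 0 = 0 → g 0 = 0 → Ra f l → Ra g m → Ra (f * g) (l * m)) ∧
  (∀ (f : ℝ ≃o ℝ) (l : ℝ), f 0 = 0 → 0 < l → Ra f l → Ra f⁻¹ l⁻¹) ∧
  (∀ f : ℝ ≃o ℝ, Good f → Ra f 1 → Tr f ∨ ∃ k a : ℝ, 0 < k ∧ a ≠ 0 ∧ Dep f k a) ∧
  (∀ (h t : ℝ ≃o ℝ) (σ k a : ℝ), Good h → Ex h σ → σ < 1 → t 0 = 0 → 0 < k → a ≠ 0 → Dep t k a →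
    ∃ a' : ℝ, a' ≠ 0 ∧ Asy (h * t * h⁻¹) (1 + k / σ) a')

/-- RA (all germs tangent to the identity have the same depth, and commute).  Hypotheses `StAC`, `StEX`.  Note that `Ra f 1`
is equivalent to `Asy f 1 0`, and `Asy f s c` with `s > 1` implies it; `T = {g | Ra (θ g) 1}` is a subgroup.
PROOF.  Part 1: suppose `k < l` (else exchange `g`, `h`).  There are `h_j ∈ Γ` with `Dep (θ h_j) (l + j k) b_j`, `b_j ≠ 0`: `h_0 = h`, and
`h_(j+1) = ⁅g, h_j⁆` satisfies `Asy _ (1 + k + (l + j k)) ((k - (l + j k)) a b_j)` with nonzero coefficient, so it is not `Tr`, so item 7 of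
`StEX` gives `Dep` for some depth, equal to `l + (j + 1) k` by uniqueness (item 4 of `StAC`).  Apply `rank_lemma` (Helper58.RK.Central) with
`a i = h_(r+i)`, depths `d_i = l + (r + i) k` (`i ≤ r`), `2 d_0 > d_r`, `E i = {g | Asy (θ g) 1 0 ∧ Asy (θ g) (1 + d_i) 0}` (a
subgroup by items 1, 2 of `StAC`).  `hcomm`: `B = {g | Asy (θ g) 1 0 ∧ ∀ e < d_0, Asy (θ g) (1 + e) 0}` is a subgroup which contains the
`a i`; every `x ∈ B` is `Tr` or has `Dep` with depth `≥ d_0` and nonzero coefficient; for `x, y ∈ B`: if one of them has trivial germ so has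
`⁅x, y⁆`; otherwise `Asy (θ ⁅x, y⁆) (1 + k' + l') _` with `k' + l' ≥ 2 d_0 > d_i`, so item 3.  `htf`: `Asy (θ (a i ^ n)) (1 + d_i) (n b)`.
`hlow`: item 3.  Part 2: if `θ g` or `θ h` has trivial germ so has the commutator.  Otherwise both have nonzero `Dep`, by part 1 with the
same depth `k`, and `Asy (θ ⁅g, h⁆) (1 + k + k) 0`, so `Asy (θ ⁅g, h⁆) (1 + k) 0`; if the commutator were not `Tr` it would have nonzero
`Dep` (item 7), of depth `k` by part 1: contradiction. -/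
def StRA : Prop :=
  ∀ (Γ : Type u) [Group Γ] (r : ℕ) (θ : Γ →* (ℝ ≃o ℝ)), SRank Γ r → (∀ g, Good (θ g)) →
    (∀ (g h : Γ) (k l a b : ℝ), 0 < k → 0 < l → a ≠ 0 → b ≠ 0 → Dep (θ g) k a → Dep (θ h) l b →
      k = l) ∧
    (∀ g h : Γ, Ra (θ g) 1 → Ra (θ h) 1 → Tr (θ ⁅g, h⁆))

/-- BA (topology of the components, and moving).  PROOF.  (1) Let `κ x = sInf (P ∩ Ici x)`; it is the least element of `P ∩ Ici x`.  For `x ∉ P`
there is an interval around `x` without points of `P`, on which `κ` is constant.  So `κ` is locally constant at every point of `K`,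
and a compact set has a finite subcover.  (2) Let `s = sSup {g c | g ∈ G}`.  `c ∈ (0, 1)` (points outside are fixed by `G`), `g c ≤ g 1 = 1`
(`1` is fixed: `g 1 = 1` by continuity or since `g` fixes all `x > 1` and is increasing; similarly `g 0 = 0`), so `s` is finite, `c ≤ s`.  `g s = s` for `g ∈ G` (`OrderIso.map_csSup`,
the set is `G`-invariant).  So `s ∉ [c, d]`, `s > d`, and some `g c > d`. -/
def StBA : Prop :=
  (∀ P K : Set ℝ, IsClosed P → IsCompact K → Disjoint K P → (∀ x, ∃ p ∈ P, x < p) →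
    ((fun x => sInf (P ∩ Set.Ici x)) '' K).Finite) ∧
  (∀ G : Subgroup (ℝ ≃o ℝ), (∀ g ∈ G, ∀ x, x ∉ Set.Icc (0 : ℝ) 1 → g x = x) → ∀ c d : ℝ, c ≤ d →
    (∀ p, (∀ g ∈ G, g p = p) → p ∉ Set.Icc c d) → ∃ h ∈ G, d < h c)

/-- BS (an element which is trivial near every common fixed point is trivial; Brin and Squier).  Hypothesis `StBA`.  PROOF.
`P` = common fixed points of `G`, closed, contains all points outside `(0, 1)`; `κ x = sInf (P ∩ Ici x) ∈ P`, `x ≤ κ x`; `κ (g x) = κ x` for `g ∈ G`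
(`p ≥ x` iff `p = g p ≥ g x`).  `N = {f ∈ G | ∀ p ∈ P, f = id near p}` is closed under products, inverses and conjugation by `G`.  For `f ∈ N`
let `s f = {x | f x ≠ x}`; its closure is compact and disjoint from `P`, so `κ '' s f` is finite (`StBA` 1).  Suppose `N ≠ 1`; choose `f ∈ N`, `f ≠ 1`
with `(κ '' s f).ncard` minimal, `x₀ ∈ s f`, `b = κ x₀`, `S = {x ∈ s f | κ x = b}`, `c = sInf S`, `d = sSup S`; `c, d ∈ closure (s f)` are not in `P`, and
there is no `p ∈ P` in `[c, d]` (otherwise `x < p < y` for some `x, y ∈ S` and `κ x ≤ p < y ≤ κ y`).  `StBA` 2 gives `h ∈ G`, `d < h c`.  Let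
`f k = h ^ k * f * h ^ (-k)` (`k ∈ ℕ`), `S k = {x | κ x = b, f k x ≠ x} = h ^ k S`, contained in `h ^ k [c, d]`; these intervals are pairwise
disjoint (`h ^ n c > d` for `n ≥ 1`), and `f k` maps `S k` to itself.  So for `i ≠ j` `⁅f i, f j⁆` fixes every `x` with `κ x = b`; it is in `N`; its
support is in `s (f i) ∪ s (f j)`, and `κ '' s (f k) = κ '' s f`, so `κ '' s ⁅f i, f j⁆ ⊆ κ '' s f \ {b}`; by minimality it is `1`.  Now
`rank_lemma` (Helper58.RK.Central) for the group `G` with `a k = f k` and `E i` = the elements of `G` which fix every point of `S i`: the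
closure of commuting elements is commutative; `f i ^ n` moves every point of `S i` (if `f i x > x` then `f i ^ n x > x`); `f j` fixes `S i`
pointwise for `j ≠ i`.  Contradiction. -/
def StBS : Prop :=
  ∀ (r : ℕ) (G : Subgroup (ℝ ≃o ℝ)), SRank G r →
    (∀ g ∈ G, ∀ x, x ∉ Set.Icc (0 : ℝ) 1 → g x = x) →
    ∀ f ∈ G, (∀ p, (∀ g ∈ G, g p = p) → ∀ᶠ x in 𝓝 p, f x = x) → f = 1

/-- AN (analytic displacements are of power type).  PROOF.  `v` is zero near `0`, or `v = x ^ n * w` near `0` with `w` analytic, `w 0 ≠ 0`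
(`AnalyticAt.exists_eventuallyEq_pow_smul_nonzero_iff`), `n ≥ 1` since `v 0 = 0`.  `c = w 0`, `s = n`, `u' = deriv v`, and
`v' = n x ^ (n - 1) w + x ^ n w'` near `0`, so `v' / x ^ (n - 1) → n w 0`.  (`u = v` near each small `x > 0`, so `HasDerivAt` transfers; real powers
`x ^ (n : ℝ)` via `Real.rpow_natCast`.) -/
def StAN : Prop :=
  ∀ u v : ℝ → ℝ, AnalyticAt ℝ v 0 → v 0 = 0 → (∀ᶠ x in 𝓝[>] (0 : ℝ), u x = v x) → Pow u

end Pool.Agent.Helper65.AH
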